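import Pool.Agent.Helper50.FT.Vert
import Pool.Agent.Helper80.RT.Main
import Pool.Agent.Helper80.RT.Geo3

/-!
# MP_980383_co: `T(n) = T*(n)` if and only if `T(n)` is attained by a face-to-face decomposition
-/

set_option autoImplicit false

namespace Pool.Agent.Results.MP_980383_co.FaceToFace

open Set Module Pool.Agent.Helper50.FT

/-- `T n`: the minimum number of simplices in a decomposition of the cube `[0,1]^n` (`v s j` is
the `j`-th vertex of the `s`-th simplex; the simplices are nondegenerate, their union is the cube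
and their interiors are disjoint). -/
noncomputable def T (n : ℕ) : ℕ :=
  sInf {N | ∃ v : Fin N → Fin (n + 1) → Fin n → ℝ, IsDecomp (Icc 0 1) v}

/-- `Tstar n`: the minimum number of simplices in a decomposition all of whose vertices are
vertices of the cube and in which any two simplices meet in a common face. -/
noncomputable def Tstar (n : ℕ) : ℕ :=
  sInf {N | ∃ v : Fin N → Fin (n + 1) → Fin n → ℝ, IsDecomp (Icc 0 1) v ∧
    (∀ s j i, v s j i = 0 ∨ v s j i = 1) ∧ ∀ s t, Meet (v s) (v t)}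

theorem meet_of_common {n : ℕ} {w z : Fin (n + 1) → Fin n → ℝ}
    (h : convexHull ℝ (range w) ∩ convexHull ℝ (range z) = convexHull ℝ (range w ∩ range z)) :
    Meet w z := by
  refine ⟨{a | w a ∈ range z}, {b | z b ∈ range w}, ?_, ?_⟩
  · have h1 : w '' {a | w a ∈ range z} = range w ∩ range z := by
      ext x
      constructor
      · rintro ⟨a, ha, rfl⟩
        exact ⟨mem_range_self a, ha⟩
      · rintro ⟨⟨a, rfl⟩, hx⟩
        exact ⟨a, hx, rfl⟩
    rw [h1]
    exact h
  · have h1 : z '' {b | z b ∈ range w} = range w ∩ range z := by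
      ext x
      constructor
      · rintro ⟨b, hb, rfl⟩
        exact ⟨hb, mem_range_self b⟩
      · rintro ⟨hx, ⟨b, rfl⟩⟩
        exact ⟨b, hx, rfl⟩
    rw [h1]
    exact h

theorem exists_tri (n : ℕ) : ∃ (N : ℕ) (v : Fin N → Fin (n + 1) → Fin n → ℝ),
    IsDecomp (Icc 0 1) v ∧ (∀ s j i, v s j i = 0 ∨ v s j i = 1) ∧ ∀ s t, Meet (v s) (v t) := by
  obtain ⟨H, hH, -⟩ := Pool.Agent.Helper80.RT.exists_small n
  obtain ⟨N, v, -, h1, h2, h3, h4, h5⟩ :=
    Pool.Agent.Helper80.RT.geo3 (Pool.Agent.Helper80.RT.cells_tri hH)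
  exact ⟨N, v, ⟨h1, h3, h4⟩, h2, fun s t => meet_of_common (h5 s t)⟩

theorem T_le {n N : ℕ} {v : Fin N → Fin (n + 1) → Fin n → ℝ} (hv : IsDecomp (Icc 0 1) v) :
    T n ≤ N := Nat.sInf_le ⟨v, hv⟩

theorem T_mem (n : ℕ) : ∃ v : Fin (T n) → Fin (n + 1) → Fin n → ℝ, IsDecomp (Icc 0 1) v := by
  obtain ⟨N, v, hv, -⟩ := exists_tri n
  exact Nat.sInf_mem (⟨N, v, hv⟩ : {N | ∃ v : Fin N → Fin (n + 1) → Fin n → ℝ,
    IsDecomp (Icc 0 1) v}.Nonempty)

theorem Tstar_mem (n : ℕ) : ∃ v : Fin (Tstar n) → Fin (n + 1) → Fin n → ℝ,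
    IsDecomp (Icc 0 1) v ∧ (∀ s j i, v s j i = 0 ∨ v s j i = 1) ∧ ∀ s t, Meet (v s) (v t) := by
  obtain ⟨N, v, hv⟩ := exists_tri n
  exact Nat.sInf_mem (⟨N, v, hv⟩ : {N | ∃ v : Fin N → Fin (n + 1) → Fin n → ℝ,
    IsDecomp (Icc 0 1) v ∧ (∀ s j i, v s j i = 0 ∨ v s j i = 1) ∧
      ∀ s t, Meet (v s) (v t)}.Nonempty)

/-- Let `n` be a natural number.

(1) `T(n) = T*(n)` if and only if there is a decomposition of the cube `[0,1]^n` into `T(n)`
simplices any two of which meet in a common face (new vertices are allowed).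

For every decomposition `v` of the cube into `N` simplices (new vertices are allowed, and it need
not be face to face):

(2) for every `i`, `N` is at least `T(n)` plus the number of vertices `x` of the decomposition
with `x i ≠ 0, 1` such that any two simplices which contain `x` meet in a common face;

(3) `N ≥ T(n) + g` if any two simplices which contain the vertex `x = v s j` meet in a common
face and `x` lies in the relative interior of a `g`-dimensional face of the cube. -/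
theorem result (n : ℕ) :
    (T n = Tstar n ↔ ∃ v : Fin (T n) → Fin (n + 1) → Fin n → ℝ,
      IsDecomp (Icc 0 1) v ∧ ∀ s t, Meet (v s) (v t)) ∧
    ∀ (N : ℕ) (v : Fin N → Fin (n + 1) → Fin n → ℝ), IsDecomp (Icc 0 1) v →
      (∀ i : Fin n, T n + {x : Fin n → ℝ | (∃ s j, v s j = x) ∧ x i ≠ 0 ∧ x i ≠ 1 ∧
        ∀ s t, x ∈ hull (v s) → x ∈ hull (v t) → Meet (v s) (v t)}.ncard ≤ N) ∧
      ∀ s j, (∀ a b, v s j ∈ hull (v a) → v s j ∈ hull (v b) → Meet (v a) (v b)) →
        T n + {i : Fin n | v s j i ≠ 0 ∧ v s j i ≠ 1}.ncard ≤ N := by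
  have main : ∀ (N : ℕ) (v : Fin N → Fin (n + 1) → Fin n → ℝ), IsDecomp (Icc 0 1) v →
      ∀ i : Fin n, T n + (freeVertices v i).ncard ≤ N := by
    intro N v hv i
    obtain ⟨M, w, hw, hM⟩ := free_smaller hv i
    have h1 := T_le hw
    rw [Nat.card_eq_fintype_card, Fintype.card_fin] at hM
    omega
  refine ⟨⟨fun h => ?_, fun h => ?_⟩, fun N v hv => ⟨fun i => main N v hv i, fun s j hx => ?_⟩⟩
  · obtain ⟨v, hv, -, h2⟩ := Tstar_mem n
    rw [h]
    exact ⟨v, hv, h2⟩
  · obtain ⟨v, hv, hm⟩ := h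
    obtain ⟨w, hw, -, -⟩ := Tstar_mem n
    refine le_antisymm (T_le hw) (Nat.sInf_le ⟨v, hv, fun s j i => ?_, hm⟩)
    by_contra hcon
    push Not at hcon
    have h1 := main _ v hv i
    have h2 : v s j ∈ freeVertices v i := ⟨⟨s, j, rfl⟩, hcon.1, hcon.2, fun a b _ _ => hm a b⟩
    have h3 : 0 < (freeVertices v i).ncard :=
      (Set.ncard_pos (finite_freeVertices v i)).mpr ⟨_, h2⟩
    omega
  · obtain ⟨M, w, hw, hM⟩ := vertex_smaller hv (x := v s j) hx ⟨s, j, rfl⟩
    have h1 := T_le hw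
    rw [Nat.card_eq_fintype_card, Fintype.card_fin] at hM
    omega

end Pool.Agent.Results.MP_980383_co.FaceToFace
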