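import Pool.Agent.Helper80.CS.Cov
import Pool.Agent.Helper80.CS.Asy
import Pool.Agent.Helper80.RT.Main
import Pool.Agent.Helper80.RT.Geo3
import Pool.Agent.Helper80.RT.Rat

/-!
# MP_980383_co: `T*(n) ≤ π^n √((n + 1)!) / (n + 1)` and `T*(n) ≤ (√e + o(1))^n T(n)`
-/

set_option autoImplicit false

namespace Pool.Agent.Results.MP_980383_co.NearOptimal

/-- For every `n` there is a triangulation of the cube `[0,1]^n` without new vertices (`v n s i` is the `i`-th vertex of the `s`-th simplex: the simplices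
are nondegenerate, their vertices are vertices of the cube, their union is the cube, their interiors are disjoint, and any two of them meet in the convex
hull of their common vertices, a common face) with `N n ≤ π ^ n √((n + 1)!) / (n + 1)` simplices, and such that for every `c > √e` and all `n ≥ n₀(c)` the
number `N n` is at most `c ^ n M` for every number `M` of nondegenerate `n`-simplices with arbitrary vertices whose union is the cube. -/
theorem result : ∃ (N : ℕ → ℕ) (v : (n : ℕ) → Fin (N n) → Fin (n + 1) → Fin n → ℝ),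
    (∀ n, (N n : ℝ) ≤ Real.pi ^ n * √((n + 1).factorial) / (n + 1) ∧
      (∀ s, AffineIndependent ℝ (v n s)) ∧ (∀ s i j, v n s i j = 0 ∨ v n s i j = 1) ∧
      (⋃ s, convexHull ℝ (Set.range (v n s))) = Set.Icc 0 1 ∧
      (∀ s t, s ≠ t → Disjoint (interior (convexHull ℝ (Set.range (v n s))))
        (interior (convexHull ℝ (Set.range (v n t))))) ∧
      ∀ s t, convexHull ℝ (Set.range (v n s)) ∩ convexHull ℝ (Set.range (v n t)) =
        convexHull ℝ (Set.range (v n s) ∩ Set.range (v n t))) ∧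
    ∀ c : ℝ, √(Real.exp 1) < c → ∃ n₀ : ℕ, ∀ n ≥ n₀, ∀ M : ℕ,
      ∀ w : Fin M → Fin (n + 1) → Fin n → ℝ, (∀ s, AffineIndependent ℝ (w s)) →
        (⋃ s, convexHull ℝ (Set.range (w s))) = Set.Icc (0 : Fin n → ℝ) 1 → (N n : ℝ) ≤ c ^ n * M := by
  have key : ∀ n : ℕ, ∃ (N : ℕ) (v : Fin N → Fin (n + 1) → Fin n → ℝ),
      (N : ℝ) ≤ Real.pi ^ n * √((n + 1).factorial) / (n + 1) ∧
      (∀ s, AffineIndependent ℝ (v s)) ∧ (∀ s i j, v s i j = 0 ∨ v s i j = 1) ∧
      (⋃ s, convexHull ℝ (Set.range (v s))) = Set.Icc 0 1 ∧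
      (∀ s t, s ≠ t → Disjoint (interior (convexHull ℝ (Set.range (v s))))
        (interior (convexHull ℝ (Set.range (v t))))) ∧
      ∀ s t, convexHull ℝ (Set.range (v s)) ∩ convexHull ℝ (Set.range (v t)) =
        convexHull ℝ (Set.range (v s) ∩ Set.range (v t)) := by
    intro n
    obtain ⟨H, hH, h1⟩ := Pool.Agent.Helper80.RT.exists_small n
    obtain ⟨N, v, h2, h3⟩ := Pool.Agent.Helper80.RT.geo3 (Pool.Agent.Helper80.RT.cells_tri hH)
    exact ⟨N, v, le_trans (by exact_mod_cast h2) h1, h3⟩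
  choose N v hv using key
  refine ⟨N, v, hv, fun c hc => ?_⟩
  obtain ⟨c', hc'0, hc', h1⟩ := Pool.Agent.Helper80.RT.ratio_num c hc
  obtain ⟨n₀, hn₀⟩ := Pool.Agent.Helper80.CS.asy c' hc'0 hc'
  obtain ⟨n₁, hn₁⟩ := Filter.eventually_atTop.1 h1
  refine ⟨max n₀ n₁, fun n hn M w hw hU => ?_⟩
  have hmem : ∀ s i, w s i ∈ Set.Icc (0 : Fin n → ℝ) 1 := fun s i => by
    rw [← hU]
    exact Set.mem_iUnion.2 ⟨s, subset_convexHull ℝ _ (Set.mem_range_self i)⟩
  have h2 : (c' * √n) ^ n ≤ M := hn₀ n (le_trans (le_max_left _ _) hn) M fun K hK δ h0 h1 =>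
    Pool.Agent.Helper80.CS.cover w hw (fun s i j => (hmem s i).1 j)
      (fun s i j => (hmem s i).2 j) hU.ge K hK δ h0 h1
  have hc0 : 0 < c := (Real.sqrt_nonneg _).trans_lt hc
  calc (N n : ℝ) ≤ Real.pi ^ n * √((n + 1).factorial) / (n + 1) := (hv n).1
    _ ≤ c ^ n * (c' * √n) ^ n := hn₁ n (le_trans (le_max_right _ _) hn)
    _ ≤ c ^ n * M := mul_le_mul_of_nonneg_left h2 (by positivity)

end Pool.Agent.Results.MP_980383_co.NearOptimal
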