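import Pool.Agent.Helper80.CS.Cov
import Pool.Agent.Helper80.CS.Asy

/-!
# MP_980383_co: every decomposition of the `n`-cube has at least `((π/e - o(1)) √n)^n` simplices
-/

set_option autoImplicit false

namespace Pool.Agent.Results.MP_980383_co.PiOverE

/-- If the union of `N` nondegenerate `n`-simplices in `ℝ^n` (`v s i` is the `i`-th vertex of the
`s`-th simplex) is the cube `[0,1]^n`, then `N ≥ (c √n)^n`, for every `c < π/e` and all `n ≥ n₀(c)`.
The simplices may overlap, so this holds in particular for decompositions of the cube (with new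
vertices, and not face to face). -/
theorem result : ∀ c : ℝ, 0 < c → c < Real.pi / Real.exp 1 → ∃ n₀ : ℕ, ∀ n ≥ n₀, ∀ N : ℕ,
    ∀ v : Fin N → Fin (n + 1) → Fin n → ℝ, (∀ s, AffineIndependent ℝ (v s)) →
      (⋃ s, convexHull ℝ (Set.range (v s))) = Set.Icc (0 : Fin n → ℝ) 1 →
      (c * √n) ^ n ≤ N := by
  intro c hc0 hc
  obtain ⟨n₀, hn₀⟩ := Pool.Agent.Helper80.CS.asy c hc0 hc
  refine ⟨n₀, fun n hn N v hv hU => hn₀ n hn N fun K hK δ h0 h1 => ?_⟩
  have hmem : ∀ s i, v s i ∈ Set.Icc (0 : Fin n → ℝ) 1 := fun s i => by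
    rw [← hU]
    exact Set.mem_iUnion.2 ⟨s, subset_convexHull ℝ _ (Set.mem_range_self i)⟩
  exact Pool.Agent.Helper80.CS.cover v hv (fun s i j => (hmem s i).1 j)
    (fun s i j => (hmem s i).2 j) hU.ge K hK δ h0 h1

end Pool.Agent.Results.MP_980383_co.PiOverE
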